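import Pool.Agent.H59.R1.Defs
import Pool.Agent.H75.PRL.S2
import Pool.Agent.H14.AVS.S2

/-!
# Rank one: module LI3 (at infinity every class of square norm is the class of a point)
-/

set_option autoImplicit false

namespace Pool.RKO

open Polynomial Pool.AVR Pool.AVS Pool.RZ Pool.PRL

/-- LI3. -/
theorem li3 (hSQI : SQIStmt) (hTRS : TRSStmt) (hSCD : SCDStmt) : LI3Stmt := by
  intro F _ _ h2 n f hf hNR d hd0 L _ O ι hcomp h hco hN
  have hloc := hcomp.loc
  obtain ⟨-, hS, -⟩ := hSCD F d f hd0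
  obtain ⟨s0, hs0⟩ := hSQI F h2 n f hf hNR L O ι hcomp h hco hN
  obtain ⟨-, -, hl1, -⟩ := hS 1
  have h1 : scd d (1 : (RatFunc F)[X]) = 1 := by
    unfold scd
    exact one_comp
  have h3 := (hl1 L ι).1 (by
    rw [h1, Polynomial.map_one]
    exact hTRS L O (ι (RatFunc.X)⁻¹) hloc _ _ _)
  obtain ⟨x, y, hxy, hy, s, hs⟩ := h3
  -- the inverse of `s0`
  have hcoL : IsCoprime (h.map ι) ((cubK f).map ι) := hco.map (mapRingHom ι)
  obtain ⟨q, hq⟩ := hs0
  have hs0c : IsCoprime s0 ((cubK f).map ι) := by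
    have h4 : IsCoprime (s0 ^ 2 + (cubK f).map ι * q) ((cubK f).map ι) := by
      have : s0 ^ 2 + (cubK f).map ι * q = h.map ι := by linear_combination -hq
      rw [this]
      exact hcoL
    have h5 : IsCoprime (s0 ^ 2) ((cubK f).map ι) := IsCoprime.of_add_mul_left_left h4
    exact (IsCoprime.pow_left_iff (by norm_num)).1 h5
  obtain ⟨u, v, huv⟩ := hs0c
  refine ⟨x, y, hxy, hy, s * u, ?_⟩
  obtain ⟨q', hq'⟩ := hs
  rw [Polynomial.map_one, one_mul] at hq'
  refine ⟨q' - q * s ^ 2 * u ^ 2 + s ^ 2 * v * (1 + u * s0), ?_⟩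
  linear_combination hq' - s ^ 2 * u ^ 2 * hq - s ^ 2 * (1 + u * s0) * huv

end Pool.RKO
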