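import Pool.Agent.H59.R1.Defs
import Pool.Agent.H41.HYP.S2
import Pool.Agent.H52.RZ.INF
import Pool.Agent.H77.PRL.SQR
import Pool.Agent.H6.PRL.SCD
import Pool.Agent.H70.HYP.NMU

/-!
# Rank one: module SQI (at infinity every class of square norm is a square)
-/

set_option autoImplicit false

namespace Pool.RKO

open Polynomial Pool.AVR Pool.AVS Pool.RZ Pool.PRL
open Pool.HYP (rd oL UNRStmt)

namespace SQI

section place

variable {F : Type} [Field F]

theorem const_mem (c : F) : (RatFunc.C c : RatFunc F) ∈ OInf F := by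
  change (RatFunc.C c : RatFunc F).intDegree ≤ 0
  rw [RatFunc.intDegree_C]

/-- The constants. -/
noncomputable def cst : F →+* OInf F where
  toFun c := ⟨RatFunc.C c, const_mem c⟩
  map_one' := Subtype.ext (map_one _)
  map_zero' := Subtype.ext (map_zero _)
  map_add' _ _ := Subtype.ext (map_add _ _ _)
  map_mul' _ _ := Subtype.ext (map_mul _ _ _)

theorem rho_cst (c : F) : INF.rho (cst c) = c := by
  have h1 : algebraMap F[X] (RatFunc F) (C c) / (RatFunc.X : RatFunc F) ^ 0 = RatFunc.C c := by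
    rw [pow_zero, div_one, RatFunc.algebraMap_C]
  have h2 : algebraMap F[X] (RatFunc F) (C c) / (RatFunc.X : RatFunc F) ^ 0 ∈ OInf F := by
    rw [h1]
    exact const_mem c
  have h3 := INF.rho_div (C c) 0 (by simp) h2
  rw [coeff_C_zero] at h3
  have h4 : cst c = ⟨_, h2⟩ := Subtype.ext h1.symm
  rw [h4]
  exact h3

variable {L : Type} [Field L] {O : ValuationSubring L} {ι : RatFunc F →+* L}

/-- The map from the functions regular at infinity. -/
noncomputable def phi (hI : IsComp F (Iinf F) (RatFunc.X)⁻¹ L O ι) : OInf F →+* O where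
  toFun x := ⟨ι x, (hI.mem x).2 x.2⟩
  map_one' := Subtype.ext (map_one _)
  map_zero' := Subtype.ext (map_zero _)
  map_add' _ _ := Subtype.ext (map_add _ _ _)
  map_mul' _ _ := Subtype.ext (map_mul _ _ _)

/-- The residue of a function is the residue of its value at infinity. -/
theorem res_phi (hI : IsComp F (Iinf F) (RatFunc.X)⁻¹ L O ι) (x : OInf F) :
    IsLocalRing.residue O (phi hI x) = IsLocalRing.residue O (phi hI (cst (INF.rho x))) := by
  rw [← sub_eq_zero, ← map_sub, ← map_sub]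
  set y : OInf F := x - cst (INF.rho x) with hy
  have hy0 : INF.rho y = 0 := by rw [hy, map_sub, rho_cst, sub_self]
  by_cases h0 : (y : RatFunc F) = 0
  · have : y = 0 := Subtype.ext h0
    rw [this, map_zero, map_zero]
  · have h1 : (y : RatFunc F).intDegree ≤ 0 := y.2
    have h2 : (y : RatFunc F).intDegree ≠ 0 := fun h => INF.rho_ne_zero h0 h hy0
    have h3 : (y : RatFunc F) / (RatFunc.X)⁻¹ ∈ OInf F := by
      change ((y : RatFunc F) / (RatFunc.X)⁻¹).intDegree ≤ 0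
      rw [div_inv_eq_mul, RatFunc.intDegree_mul h0 RatFunc.X_ne_zero, RatFunc.intDegree_X]
      omega
    have h4 : ι ((y : RatFunc F) / (RatFunc.X)⁻¹) ∈ O := (hI.mem _).2 h3
    have hπ := Loc.pi_max hI.loc
    rw [IsLocalRing.residue_eq_zero_iff]
    have h5 : phi hI y = ⟨ι (RatFunc.X)⁻¹, hI.loc.pi_mem⟩ * ⟨_, h4⟩ := by
      apply Subtype.ext
      change ι (y : RatFunc F) = ι (RatFunc.X)⁻¹ * ι ((y : RatFunc F) / (RatFunc.X)⁻¹)
      rw [← map_mul, mul_div_cancel₀]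
      exact inv_ne_zero RatFunc.X_ne_zero
    rw [h5]
    exact Ideal.mul_mem_right _ _ hπ

/-- Every residue is the residue of a constant. -/
theorem exists_cst (hI : IsComp F (Iinf F) (RatFunc.X)⁻¹ L O ι) (x : IsLocalRing.ResidueField O) :
    ∃ c : F, IsLocalRing.residue O (phi hI (cst c)) = x := by
  obtain ⟨z, rfl⟩ := IsLocalRing.residue_surjective x
  obtain ⟨y, hy⟩ := hI.dense z 1
  rw [pow_one] at hy
  have hne : ι (RatFunc.X)⁻¹ ≠ 0 := hI.loc.pi_ne
  have h1 : ι y ∈ O := by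
    have h2 : ι y = z - ι (RatFunc.X)⁻¹ * (((z : L) - ι y) / ι (RatFunc.X)⁻¹) := by
      rw [mul_div_cancel₀ _ hne]
      ring
    rw [h2]
    exact O.sub_mem z.2 (O.mul_mem _ _ hI.loc.pi_mem hy)
  have h3 : y ∈ OInf F := (hI.mem y).1 h1
  refine ⟨INF.rho ⟨y, h3⟩, ?_⟩
  rw [← res_phi hI ⟨y, h3⟩, ← sub_eq_zero, ← map_sub, IsLocalRing.residue_eq_zero_iff]
  have h5 : phi hI ⟨y, h3⟩ - z = ⟨ι (RatFunc.X)⁻¹, hI.loc.pi_mem⟩ * (-⟨_, hy⟩) := by
    apply Subtype.ext
    change ι y - (z : L) = ι (RatFunc.X)⁻¹ * (-(((z : L) - ι y) / ι (RatFunc.X)⁻¹))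
    rw [mul_neg, mul_div_cancel₀ _ hne]
    ring
  rw [h5]
  exact Ideal.mul_mem_right _ _ (Loc.pi_max hI.loc)

/-- A cubic without roots at infinity is irreducible modulo the uniformizer. -/
theorem irr (hI : IsComp F (Iinf F) (RatFunc.X)⁻¹ L O ι) (a b c : OInf F)
    (hNR : NR (INF.rho a, INF.rho b, INF.rho c)) :
    Irreducible (rd O (cub (phi hI a) (phi hI b) (phi hI c))) := by
  have hmap : rd O (cub (phi hI a) (phi hI b) (phi hI c)) =
      cub (IsLocalRing.residue O (phi hI a)) (IsLocalRing.residue O (phi hI b))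
        (IsLocalRing.residue O (phi hI c)) := by
    unfold cub
    simp only [Polynomial.map_add, Polynomial.map_pow, Polynomial.map_X, Polynomial.map_mul,
      Polynomial.map_C]
  rw [hmap]
  refine (Polynomial.irreducible_iff_roots_eq_zero_of_degree_le_three ?_ ?_).2 ?_
  · rw [INF.cub_natDegree]
    norm_num
  · rw [INF.cub_natDegree]
  · rw [Multiset.eq_zero_iff_forall_notMem]
    intro x hx
    rw [mem_roots (INF.cub_monic _ _ _).ne_zero, IsRoot] at hx
    obtain ⟨y, rfl⟩ := exists_cst hI x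
    rw [res_phi hI a, res_phi hI b, res_phi hI c] at hx
    set ψ : F →+* IsLocalRing.ResidueField O :=
      (IsLocalRing.residue O).comp ((phi hI).comp cst) with hψ
    have h1 : ψ (y ^ 3 + INF.rho a * y ^ 2 + INF.rho b * y + INF.rho c) = 0 := by
      have h2 : ∀ z : F, IsLocalRing.residue O (phi hI (cst z)) = ψ z := fun z => rfl
      simp only [h2] at hx
      rw [← hx]
      unfold cub
      simp only [eval_add, eval_mul, eval_pow, eval_X, eval_C, map_add, map_mul, map_pow]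
    exact hNR y ((map_eq_zero ψ).1 h1)

theorem coeff_mem (p : F[X]) (M : ℕ) (hp : p.natDegree ≤ M) :
    algebraMap F[X] (RatFunc F) p / (RatFunc.X : RatFunc F) ^ M ∈ OInf F :=
  (WUW.rI_div M p hp).1

end place

section local'

variable {L : Type} [Field L] {O : ValuationSubring L} {π : L}

theorem pi_inv (h : Loc L O π) : π⁻¹ ∉ O := by
  intro h1
  have h2 := (h.unif π h.pi_mem h.pi_ne).2 (by rw [div_self h.pi_ne]; exact O.one_mem)
  exact h2 h1

theorem zpow_unit (h : Loc L O π) (k : ℤ) (h1 : π ^ k ∈ O) (h2 : (π ^ k)⁻¹ ∈ O) : k = 0 := by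
  have hpi := h.pi_ne
  have hmem : ∀ m : ℤ, 0 ≤ m → π ^ m ∈ O := by
    intro m hm
    obtain ⟨j, rfl⟩ := Int.eq_ofNat_of_zero_le hm
    rw [zpow_natCast]
    exact pow_mem h.pi_mem j
  rcases lt_trichotomy k 0 with hk | hk | hk
  · exfalso
    apply pi_inv h
    have h3 := O.mul_mem _ _ h1 (hmem (-k - 1) (by omega))
    rw [← zpow_add₀ hpi] at h3
    have : k + (-k - 1) = -1 := by ring
    rwa [this, zpow_neg_one] at h3
  · exact hk
  · exfalso
    apply pi_inv h
    have h3 := O.mul_mem _ _ h2 (hmem (k - 1) (by omega))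
    rw [← zpow_neg, ← zpow_add₀ hpi] at h3
    have : -k + (k - 1) = -1 := by ring
    rwa [this, zpow_neg_one] at h3

/-- The square root of a product of a power of the uniformizer and a unit. -/
theorem sq_unit (h : Loc L O π) (m : ℤ) (u : L) (hu : UI (O : Set L) u)
    (hs : IsSquare (π ^ (3 * m) * u)) : ∃ j : ℤ, m = 2 * j ∧ IsSquare u := by
  have hpi := h.pi_ne
  obtain ⟨y, hy⟩ := hs
  have hy0 : y ≠ 0 := by
    rintro rfl
    rw [mul_zero] at hy
    exact mul_ne_zero (zpow_ne_zero _ hpi) hu.1 hy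
  obtain ⟨k, hk1, hk2⟩ := h.arch y hy0
  set v : L := y / π ^ k with hv
  have hyv : y = π ^ k * v := by
    rw [hv, mul_div_cancel₀ _ (zpow_ne_zero _ hpi)]
  have h1 : π ^ (3 * m - 2 * k) * u = v ^ 2 := by
    have h2 : π ^ (3 * m - 2 * k) = π ^ (3 * m) * (π ^ k)⁻¹ ^ 2 := by
      rw [zpow_sub₀ hpi, div_eq_mul_inv, inv_pow, ← zpow_natCast, ← zpow_mul]
      congr 3
      push_cast
      ring
    rw [h2, hv, div_pow]
    have h3 : π ^ (3 * m) * (π ^ k)⁻¹ ^ 2 * u = (π ^ (3 * m) * u) * (π ^ k)⁻¹ ^ 2 := by ring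
    rw [h3, hy, div_eq_mul_inv, inv_pow]
    ring
  have hv0 : v ≠ 0 := div_ne_zero hy0 (zpow_ne_zero _ hpi)
  have h4 : 3 * m - 2 * k = 0 := by
    apply zpow_unit h
    · have h5 : π ^ (3 * m - 2 * k) = v ^ 2 * u⁻¹ := by
        rw [← h1, mul_assoc, mul_inv_cancel₀ hu.1, mul_one]
      rw [h5]
      exact O.mul_mem _ _ (pow_mem hk1 2) hu.2.2
    · have h5 : (π ^ (3 * m - 2 * k))⁻¹ = u * v⁻¹ ^ 2 := by
        rw [inv_pow, ← h1, mul_inv]
        have := hu.1
        field_simp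
      rw [h5]
      exact O.mul_mem _ _ hu.2.1 (pow_mem hk2 2)
  refine ⟨k - m, by omega, v, ?_⟩
  rw [h4, zpow_zero, one_mul] at h1
  rw [h1]
  ring

/-- A polynomial with zero reduction. -/
theorem rd_zero (h : Loc L O π) (q : O[X]) (hq : rd O q = 0) :
    ∃ r : O[X], q = C ⟨π, h.pi_mem⟩ * r := by
  have h1 : C (⟨π, h.pi_mem⟩ : O) ∣ q := by
    rw [C_dvd_iff_dvd_coeff]
    intro i
    have h2 : IsLocalRing.residue O (q.coeff i) = 0 := by
      rw [← coeff_map]
      change (rd O q).coeff i = 0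
      rw [hq, coeff_zero]
    rw [IsLocalRing.residue_eq_zero_iff, IsLocalRing.mem_maximalIdeal, mem_nonunits_iff] at h2
    by_cases h0 : q.coeff i = 0
    · rw [h0]
      exact dvd_zero _
    · have h0' : ((q.coeff i : O) : L) ≠ 0 := fun h3 => h0 (Subtype.ext h3)
      have h3 : ((q.coeff i : O) : L)⁻¹ ∉ O := by
        intro h4
        apply h2
        refine IsUnit.of_mul_eq_one ⟨_, h4⟩ ?_
        exact Subtype.ext (mul_inv_cancel₀ h0')
      have h4 := (h.unif _ (q.coeff i).2 h0').1 h3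
      refine ⟨⟨_, h4⟩, Subtype.ext ?_⟩
      change _ = π * (((q.coeff i : O) : L) / π)
      rw [mul_div_cancel₀ _ h.pi_ne]
  exact h1

/-- A polynomial over `O` which is a square modulo `(π, γ)` and prime to `γ` modulo `π` is a square
modulo `γ`. -/
theorem lift_sq (h : Loc L O π) (a b c : O) (p s : O[X])
    (hp : IsCoprime (rd O p) (rd O (cub a b c)))
    (hs : rd O (cub a b c) ∣ rd O p - rd O s ^ 2) :
    ∃ S : L[X], oL O (cub a b c) ∣ oL O p - S ^ 2 := by
  set γ : O[X] := cub a b c with hγ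
  obtain ⟨q0, hq0⟩ := hs
  have hsc : IsCoprime (rd O s) (rd O γ) := by
    have h4 : IsCoprime (rd O s ^ 2 + rd O γ * q0) (rd O γ) := by
      have : rd O s ^ 2 + rd O γ * q0 = rd O p := by rw [← hq0]; ring
      rw [this]
      exact hp
    have h5 : IsCoprime (rd O s ^ 2) (rd O γ) := IsCoprime.of_add_mul_left_left h4
    exact (IsCoprime.pow_left_iff (by norm_num)).1 h5
  obtain ⟨w0, v0, hwv⟩ := hsc
  obtain ⟨q, hq⟩ := Polynomial.map_surjective _ IsLocalRing.residue_surjective q0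
  obtain ⟨w, hw⟩ := Polynomial.map_surjective _ IsLocalRing.residue_surjective w0
  obtain ⟨v, hv⟩ := Polynomial.map_surjective _ IsLocalRing.residue_surjective v0
  obtain ⟨r1, hr1⟩ := rd_zero h (p - s ^ 2 - γ * q) (by
    rw [rd, Polynomial.map_sub, Polynomial.map_sub, Polynomial.map_pow, Polynomial.map_mul, hq]
    rw [hq0, sub_self])
  obtain ⟨r2, hr2⟩ := rd_zero h (w * s + v * γ - 1) (by
    rw [rd, Polynomial.map_sub, Polynomial.map_add, Polynomial.map_mul, Polynomial.map_mul, hw, hv,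
      Polynomial.map_one, hwv, sub_self])
  set ϖ : O := ⟨π, h.pi_mem⟩ with hϖ
  -- `p w² = 1 + π r` modulo `γ`
  set r : O[X] := r1 * w ^ 2 + r2 * (w * s + 1) with hr
  have e1 : γ ∣ p * w ^ 2 - (1 + C ϖ * r) := by
    refine ⟨q * w ^ 2 - v * (w * s + 1), ?_⟩
    rw [hr]
    linear_combination w ^ 2 * hr1 + (w * s + 1) * hr2
  have e2 : oL O γ ∣ oL O p * oL O w ^ 2 - (1 + C π * oL O r) := by
    have e3 := Polynomial.map_dvd (algebraMap O L) e1
    simp only [Polynomial.map_sub, Polynomial.map_add, Polynomial.map_one, Polynomial.map_mul,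
      Polynomial.map_pow, Polynomial.map_C] at e3
    exact e3
  obtain ⟨s1, g, h3, h4⟩ := sqr_loc h (p := oL O r) a.2 b.2 c.2 (fun i => by
    rw [coeff_map]
    exact (r.coeff i).2)
  have hoL : oL O γ = cub (a : L) (b : L) (c : L) := by
    rw [oL, hγ, cub, cub]
    simp only [Polynomial.map_add, Polynomial.map_pow, Polynomial.map_X, Polynomial.map_mul,
      Polynomial.map_C]
    rfl
  rw [← hoL] at h3 h4
  obtain ⟨Q, hQ⟩ : ∃ Q, Q = oL O γ := ⟨_, rfl⟩
  obtain ⟨U, hU⟩ : ∃ U, U = 1 + C π * oL O r := ⟨_, rfl⟩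
  rw [← hQ] at h3 h4 e2 ⊢
  rw [← hU] at h3 h4 e2
  obtain ⟨k3, hk3⟩ := h3
  obtain ⟨k4, hk4⟩ := h4
  obtain ⟨k6, hk6⟩ := e2
  refine ⟨s1 * (oL O p * oL O w * g), ?_⟩
  refine ⟨-(oL O p * (2 * k4 + Q * k4 ^ 2)) - k6 * (oL O p * U * g ^ 2) +
    k3 * (oL O p * oL O w * g) ^ 2, ?_⟩
  linear_combination (oL O p * oL O w * g) ^ 2 * hk3 - oL O p * U * g ^ 2 * hk6 -
    oL O p * (U * g + 1 + Q * k4) * hk4

end local'

end SQI

open SQI in
/-- SQI. -/
theorem sqi (hU : UNRStmt) : SQIStmt := by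
  intro F _ _ h2 n f hf hNR L _ O ι hI h hco hsq
  obtain ⟨ha, hb, hc⟩ := hf
  -- the scaled equation
  set A : OInf F := ⟨_, coeff_mem f.1 (2 * n) ha⟩ with hA
  set B : OInf F := ⟨_, coeff_mem f.2.1 (4 * n) hb⟩ with hB
  set D : OInf F := ⟨_, coeff_mem f.2.2 (6 * n) hc⟩ with hD
  have hNR' : NR (INF.rho A, INF.rho B, INF.rho D) := by
    have e1 : INF.rho A = f.1.coeff (2 * n) := INF.rho_div _ _ ha _
    have e2 : INF.rho B = f.2.1.coeff (4 * n) := INF.rho_div _ _ hb _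
    have e3 : INF.rho D = f.2.2.coeff (6 * n) := INF.rho_div _ _ hc _
    rw [e1, e2, e3]
    exact hNR
  set γ : O[X] := cub (phi hI A) (phi hI B) (phi hI D) with hγ
  have hγm : γ.Monic := by
    rw [hγ]
    unfold cub
    monicity!
  have hγd : γ.natDegree = 3 := by
    rw [hγ]
    unfold cub
    compute_degree!
  have hirr : Irreducible (rd O γ) := irr hI A B D hNR'
  have hX0 : (RatFunc.X : RatFunc F) ≠ 0 := RatFunc.X_ne_zero
  set δ : L := ι ((RatFunc.X : RatFunc F) ^ (2 * n))⁻¹ with hδ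
  have hδ0 : δ ≠ 0 := (_root_.map_ne_zero ι).2 (inv_ne_zero (pow_ne_zero _ hX0))
  set aL : L := ι (rf f.1) with haL
  set bL : L := ι (rf f.2.1) with hbL
  set cL : L := ι (rf f.2.2) with hcL
  have hcub : (cubK f).map ι = cub aL bL cL := by
    rw [cubK, cub, cub, haL, hbL, hcL]
    simp only [Polynomial.map_add, Polynomial.map_pow, Polynomial.map_X, Polynomial.map_mul,
      Polynomial.map_C]
  have hoL : oL O γ = cub (δ * aL) (δ ^ 2 * bL) (δ ^ 3 * cL) := by
    have e1 : algebraMap O L (phi hI A) = δ * aL := by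
      change ι (algebraMap F[X] (RatFunc F) f.1 / (RatFunc.X : RatFunc F) ^ (2 * n)) = _
      rw [hδ, haL, ← map_mul, div_eq_inv_mul]
    have e2 : algebraMap O L (phi hI B) = δ ^ 2 * bL := by
      change ι (algebraMap F[X] (RatFunc F) f.2.1 / (RatFunc.X : RatFunc F) ^ (4 * n)) = _
      rw [hδ, hbL, ← map_pow, ← map_mul, div_eq_inv_mul]
      congr 2
      rw [inv_pow, ← pow_mul]
      congr 2
      ring
    have e3 : algebraMap O L (phi hI D) = δ ^ 3 * cL := by
      change ι (algebraMap F[X] (RatFunc F) f.2.2 / (RatFunc.X : RatFunc F) ^ (6 * n)) = _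
      rw [hδ, hcL, ← map_pow, ← map_mul, div_eq_inv_mul]
      congr 2
      rw [inv_pow, ← pow_mul]
      congr 2
      ring
    rw [oL, hγ]
    unfold cub
    simp only [Polynomial.map_add, Polynomial.map_pow, Polynomial.map_X, Polynomial.map_mul,
      Polynomial.map_C, e1, e2, e3]
  set h' : L[X] := SCD.sc δ (h.map ι) with hh'
  have hcoL : IsCoprime (h.map ι) (cub aL bL cL) := by
    have := hco.map (mapRingHom ι)
    rw [← hcub]
    exact this
  have hnd : ¬ oL O γ ∣ h' := by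
    rw [hoL, SCD.dvd_iff hδ0, hh', SCD.sc_comp hδ0]
    intro hd
    have h3 : IsUnit (cub aL bL cL) := by
      rw [← isCoprime_self]
      exact hcoL.of_isCoprime_of_dvd_left hd
    have h4 := natDegree_eq_zero_of_isUnit h3
    rw [INF.cub_natDegree] at h4
    omega
  obtain ⟨u1, -, u3, u4⟩ := hU L O _ hI.loc γ hγm hirr
  obtain ⟨m, p, hp, hdv⟩ := u1 h' hnd
  -- the norms
  have hn1 : Algebra.norm L (AdjoinRoot.mk (oL O γ) h') =
      ι (Algebra.norm (RatFunc F) (AdjoinRoot.mk (cubK f) h)) := by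
    rw [hoL, hh', SCD.norm_sc hδ0]
    have h5 := Pool.HYP.NMU.norm_map ι (cubK f) h (INF.cub_monic _ _ _)
    rw [hcub] at h5
    exact h5
  have hmk : AdjoinRoot.mk (oL O γ) h' =
      AdjoinRoot.mk (oL O γ) (C (ι (RatFunc.X)⁻¹ ^ m) * oL O p) := by
    rw [← sub_eq_zero, ← map_sub, AdjoinRoot.mk_eq_zero]
    exact hdv
  have hn2 : Algebra.norm L (AdjoinRoot.mk (oL O γ) h') =
      ι (RatFunc.X)⁻¹ ^ (3 * m) * Algebra.norm L (AdjoinRoot.mk (oL O γ) (oL O p)) := by
    rw [hmk, map_mul, map_mul, Pool.HYP.NMU.norm_C _ _ (hγm.map _), hγm.natDegree_map, hγd]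
    congr 1
    rw [← zpow_natCast, ← zpow_mul]
    congr 1
    push_cast
    ring
  have hsq' : IsSquare (ι (RatFunc.X)⁻¹ ^ (3 * m) *
      Algebra.norm L (AdjoinRoot.mk (oL O γ) (oL O p))) := by
    rw [← hn2, hn1]
    exact hsq.map ι
  obtain ⟨j, hj, hsp⟩ := sq_unit hI.loc m _ (u3 p hp) hsq'
  obtain ⟨s, hs⟩ := u4 p hp hsp
  obtain ⟨S, hS⟩ := lift_sq hI.loc _ _ _ p s hp hs
  -- the square root
  have hfin : oL O γ ∣ h' - (C (ι (RatFunc.X)⁻¹ ^ j) * S) ^ 2 := by
    obtain ⟨k1, hk1⟩ := hdv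
    obtain ⟨k2, hk2⟩ := hS
    have e1 : (C (ι (RatFunc.X)⁻¹ ^ m) : L[X]) = C (ι (RatFunc.X)⁻¹ ^ j) ^ 2 := by
      rw [← C_pow, hj, ← zpow_natCast, ← zpow_mul]
      congr 2
      push_cast
      ring
    rw [e1] at hk1
    refine ⟨k1 + C (ι (RatFunc.X)⁻¹ ^ j) ^ 2 * k2, ?_⟩
    linear_combination hk1 + C (ι (RatFunc.X)⁻¹ ^ j) ^ 2 * hk2
  rw [hoL, SCD.dvd_iff hδ0] at hfin
  refine ⟨(C (ι (RatFunc.X)⁻¹ ^ j) * S).comp (C δ * X), ?_⟩
  rw [hcub]
  have e5 : (h' - (C (ι (RatFunc.X)⁻¹ ^ j) * S) ^ 2).comp (C δ * X) =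
      h.map ι - ((C (ι (RatFunc.X)⁻¹ ^ j) * S).comp (C δ * X)) ^ 2 := by
    rw [sub_comp, pow_comp, hh', SCD.sc_comp hδ0]
  rw [e5] at hfin
  exact hfin

end Pool.RKO
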